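import Pool.Agent.GSH.LpF

/-!
# The LMO invariant determines almost every graph homology sphere among all graph homology spheres

A prime graph homology sphere is given by a splice diagram (Eisenbud, Neumann); the weights of the
edges and the edge determinants may have any sign, and the nodes may have any valence and any number
of leaves. The LMO invariant determines the Ohtsuki series of the connected sum of a finite family of
prime graph homology spheres.

We show that every family in the class `Generic` is determined by its Ohtsuki series among all finite
families of prime graph homology spheres (of any type and any size, in the class or not), and that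
almost all families of a given type are in the class. `Generic` says that every node with leaves has a
leaf divisible by a power `l ^ m` of a prime `l` which divides no leaf of another node of the family,
where `l` is larger than an explicit bound which depends on the number of nodes and on
`c₂ - c₁ ^ 2 / 2`, and which is smaller than every power of the largest weight.

For every `c` a fixed finite number of coefficients of the series suffices for the families with
`c₂ - c₁ ^ 2 / 2 ≤ c`, where `c₁` and `c₂` are the first coefficients of the series.
-/

set_option autoImplicit false

open Finset PowerSeries Filter Topology

namespace Pool.Agent.Results.MP_27a3bb_gt.AlmostAllSpheres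

open Pool.Agent.OHG Pool.Agent.GSP Pool.Agent.GSH

/-- (1) Let `P` be a finite family of prime graph homology spheres in the class `Generic`, let
`c₂ - c₁ ^ 2 / 2 ≤ c` for `P`, and let `P'` be any finite family of prime graph homology spheres. If
the coefficients of degree at most `d` of the Ohtsuki series of the connected sums of the two families
agree, where `d` depends on `c` only, then the families agree up to the order and up to isomorphism of
the splice diagrams; an isomorphism preserves the leaves and the weights of the edges and the signs of
the nodes up to the simultaneous change of the sign of a weight and of the sign of its node, which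
does not change the manifold.

(2) Let `G i` be trees and `a i v` numbers of leaves such that all valences are at least `3`. Among
the families of prime graph homology spheres with the trees `G i`, with `a i v` leaves at the node `v`
and with all weights of absolute value at most `X`, the proportion of those in the class `Generic`
tends to `1` as `X` tends to infinity. -/
theorem result :
    (∀ c : ℝ, ∃ d : ℕ, ∀ {ι ι' : Type} [Fintype ι] [Fintype ι'] {κ κ' : ℝ} {P : ι → Prime}
      {P' : ι' → Prime}, Generic P →
      coeff 2 (series κ (univ.val.map P)) - (coeff 1 (series κ (univ.val.map P))) ^ 2 / 2 ≤ c →
      (∀ n ≤ d, coeff n (series κ (univ.val.map P)) = coeff n (series κ' (univ.val.map P'))) →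
      κ = κ' ∧ ∃ e : ι ≃ ι', ∀ i, Iso (P i) (P' (e i))) ∧
    ∀ {ι : Type} [Fintype ι] (n : ι → ℕ) (G : ∀ i, SimpleGraph (Fin (n i + 1)))
      (a : ∀ i, Fin (n i + 1) → ℕ), (∀ i, (G i).IsTree) → (∀ i v, 3 ≤ a i v + dg (G i) v) →
      Tendsto (fun X : ℕ =>
        (({P : ι → Prime | (∀ i, P i ∈ Box (G i) (a i) X) ∧ Generic P}.ncard : ℝ) /
          {P : ι → Prime | ∀ i, P i ∈ Box (G i) (a i) X}.ncard)) atTop (𝓝 1) := by
  refine ⟨fun c => ?_, fun _ _ _ hG ha => Generic.density hG ha⟩
  obtain ⟨d, hd⟩ := exists_deg c
  exact ⟨d, fun h1 hc he => h1.separation (hd _ _ _ _ hc he)⟩

end Pool.Agent.Results.MP_27a3bb_gt.AlmostAllSpheres
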