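import Pool.Agent.OHG.Final
import Pool.Agent.H42.GS.Sharp

/-!
# The LMO invariant is finite-to-one on the graph integral homology spheres

The degree `≤ 2` part of the LMO invariant of an integral homology sphere determines the
coefficients `c₁`, `c₂` of its Ohtsuki series. For a graph manifold the Ohtsuki series is given by a
formal Gaussian integral over the nodes of the splice diagram (surgery on the plumbing tree). We show
that the primitive part `c₂ - c₁ ^ 2 / 2` is at least `24` times the number of prime summands, with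
equality exactly for the connected sums of Poincare spheres and of splices of two trefoil exteriors,
and that it is bounded on finitely many connected sums only, with an explicit bound for the linking
numbers of the splice diagrams.
-/

set_option autoImplicit false

open PowerSeries Finset

namespace Pool.Agent.Results.MP_27a3bb_gt.GraphFinite

open Pool.Agent.OHG Pool.Agent.H42.GS

/-- The splice diagrams of the Poincare sphere (both orientations): one node, leaves `2, 3, 5`. -/
def IsPoincare (P : Prime) : Prop :=
  P.n = 0 ∧ ∀ v, P.D.leaf v = {2, 3, 5}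

/-- The splice diagrams of the splices of two trefoil exteriors: two nodes with the leaves `2, 3`
each, and the weights `1` or `-1` of the edge between them. -/
def IsTrefoilSplice (P : Prime) : Prop :=
  P.n = 1 ∧ (∀ v, P.D.leaf v = {2, 3}) ∧ ∀ v w, v ≠ w → P.D.wt v w = 1 ∨ P.D.wt v w = -1

private theorem poinc_iff (P : Prime) : Poinc P.D ↔ IsPoincare P := by
  unfold Poinc IsPoincare
  refine and_congr_left fun _ => ?_
  constructor
  · intro h
    have h1 : Fintype.card (Fin (P.n + 1)) ≤ 1 := Fintype.card_le_one_iff.2 h
    rw [Fintype.card_fin] at h1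
    omega
  · intro h v w
    have h1 : Fintype.card (Fin (P.n + 1)) ≤ 1 := by
      rw [Fintype.card_fin]
      omega
    exact Fintype.card_le_one_iff.1 h1 v w

private theorem trefoils_iff (P : Prime) : Trefoils P.D ↔ IsTrefoilSplice P := by
  unfold Trefoils IsTrefoilSplice
  rw [Fintype.card_fin]
  refine and_congr ⟨fun h => by omega, fun h => by omega⟩ (and_congr_right fun _ => ?_)
  refine forall_congr' fun v => forall_congr' fun w => imp_congr_right fun _ => ?_
  exact sq_eq_one_iff

private theorem sum_ge_iff (M : Multiset Prime) (f : Prime → ℝ) (hf : ∀ P, 24 ≤ f P) :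
    24 * (M.card : ℝ) ≤ (M.map f).sum ∧
      ((M.map f).sum = 24 * M.card ↔ ∀ P ∈ M, f P = 24) := by
  induction M using Multiset.induction_on with
  | empty => simp
  | cons P M ih =>
    rw [Multiset.card_cons, Multiset.map_cons, Multiset.sum_cons]
    obtain ⟨h1, h2⟩ := ih
    have h3 := hf P
    push_cast
    refine ⟨by linarith, ⟨fun h Q hQ => ?_, fun h => ?_⟩⟩
    · have h4 : f P = 24 := by linarith
      have h5 : (M.map f).sum = 24 * M.card := by linarith
      rcases Multiset.mem_cons.1 hQ with rfl | hQ'
      · exact h4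
      · exact h2.1 h5 Q hQ'
    · have h4 := h P (Multiset.mem_cons_self P M)
      have h5 := h2.2 fun Q hQ => h Q (Multiset.mem_cons_of_mem hQ)
      rw [h4, h5]
      ring

private theorem mem_le (M : Multiset Prime) (f : Prime → ℝ) (hf : ∀ P, 24 ≤ f P) (P : Prime)
    (hP : P ∈ M) : f P ≤ (M.map f).sum := by
  obtain ⟨M', rfl⟩ := Multiset.exists_cons_of_mem hP
  rw [Multiset.map_cons, Multiset.sum_cons]
  have h1 := (sum_ge_iff M' f hf).1
  have h2 : (0 : ℝ) ≤ 24 * (M'.card : ℝ) := by positivity
  linarith

/-- `c₂ - c₁ ^ 2 / 2` is at least `24` times the number of prime summands, with equality exactly for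
the sums of Poincare spheres and splices of two trefoil exteriors; it bounds the linking numbers, so
below every bound there are only finitely many connected sums. -/
theorem result :
    (∀ (κ : ℝ) (M : Multiset Prime),
      24 * (M.card : ℝ) ≤ coeff 2 (series κ M) - (coeff 1 (series κ M)) ^ 2 / 2 ∧
      (coeff 2 (series κ M) - (coeff 1 (series κ M)) ^ 2 / 2 = 24 * M.card ↔
        ∀ P ∈ M, IsPoincare P ∨ IsTrefoilSplice P) ∧
      ∀ P ∈ M, ∑ v, ∑ w, (P.D.lk v w : ℝ) ^ 2 ≤
        770 * (coeff 2 (series κ M) - (coeff 1 (series κ M)) ^ 2 / 2)) ∧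
    ∀ c : ℝ, {M : Multiset Prime |
      ∃ κ, coeff 2 (series κ M) - (coeff 1 (series κ M)) ^ 2 / 2 ≤ c}.Finite := by
  refine ⟨fun κ M => ?_, finite⟩
  have h0 : coeff 2 (series κ M) - (coeff 1 (series κ M)) ^ 2 / 2 =
      (M.map fun P => v2 (part P.D) - 1 / 24).sum := v2_series κ M
  have h1 : ∀ P : Prime, 24 ≤ v2 (part P.D) - 1 / 24 := fun P => by
    have h2 : (577 / 24 : ℝ) ≤ v2 (part P.D) := (sharp P.isGraph).1
    linarith
  have h2 : ∀ P : Prime, v2 (part P.D) - 1 / 24 = 24 ↔ IsPoincare P ∨ IsTrefoilSplice P := by
    intro P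
    have h3 : v2 (part P.D) = 577 / 24 ↔ Poinc P.D ∨ Trefoils P.D := (sharp P.isGraph).2
    rw [poinc_iff, trefoils_iff] at h3
    rw [← h3]
    constructor <;> intro h <;> linarith
  obtain ⟨h3, h4⟩ := sum_ge_iff M (fun P => v2 (part P.D) - 1 / 24) h1
  rw [h0]
  refine ⟨h3, h4.trans (forall_congr' fun P => imp_congr_right fun _ => h2 P), fun P hP => ?_⟩
  have h5 := mem_le M (fun P => v2 (part P.D) - 1 / 24) h1 P hP
  have h6 := (prime_ge P).2
  have h7 := h1 P
  linarith

end Pool.Agent.Results.MP_27a3bb_gt.GraphFinite
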