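import Pool.Agent.TWO.Iso

/-!
# What the Ohtsuki series knows of the graph homology spheres

The graph integral homology spheres are the connected sums of the prime ones, which are given by
their splice diagrams (Eisenbud, Neumann): a tree of any number of nodes, with pairwise coprime
weights of any sign and non-zero edge determinants. The Ohtsuki series, which the LMO invariant
determines, is a product of formal Gaussian integrals over the nodes. We show that it determines the
constant in the exponential factor, the number of prime summands, the total number of nodes, and
whether all prime summands are links of normal surface singularities, up to a common change of the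
orientation; and that it distinguishes each connected sum of Seifert fibred homology spheres, and
each link of a normal surface singularity with two nodes, with either orientation, from all other
graph homology spheres.
-/

set_option autoImplicit false

open PowerSeries

namespace Pool.Agent.Results.MP_27a3bb_gt.GraphPieces

open Pool.Agent.OHG Pool.Agent.SLR Pool.Agent.GSP

private theorem iso_refl (P : Prime) : Iso P P :=
  ⟨Equiv.refl _, fun _ _ => 1, fun _ _ => Iff.rfl, fun _ => rfl, fun _ _ => Or.inl rfl,
    fun _ _ => by simp, fun _ => by simp⟩

/-- Let `M` and `M'` be finite families of prime graph homology spheres whose connected sums have the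
same Ohtsuki series. Then they have the same constant `κ`, the same number of members and the same
total number of nodes, and for `s = 1` and `s = -1` all members of `M` are `s`-definite if and only if
all members of `M'` are. If all members of `M` have only one node, or if `M` has only one member,
which has two nodes and is `s`-definite for some `s = 1` or `s = -1`, then `M` and `M'` agree up to
the order and up to isomorphism of the splice diagrams. -/
theorem result (κ κ' : ℝ) (M M' : Multiset Prime) (h : series κ M = series κ' M') :
    (κ = κ' ∧ Multiset.card M = Multiset.card M' ∧
      (M.map fun P => P.n + 1).sum = (M'.map fun P => P.n + 1).sum ∧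
      ∀ s : ℤ, s = 1 ∨ s = -1 → ((∀ P ∈ M, Definite s P) ↔ ∀ P ∈ M', Definite s P)) ∧
    (((∀ P ∈ M, P.n = 0) ∨
      ∃ (s : ℤ) (P : Prime), (s = 1 ∨ s = -1) ∧ M = {P} ∧ P.n = 1 ∧ Definite s P) →
      Multiset.Rel Iso M M') := by
  obtain ⟨h1, h2, h3, -, h5⟩ := Pool.Agent.GPC.determined κ κ' M M' h
  have h6 : ∀ s : ℤ, s = 1 ∨ s = -1 → ((∀ P ∈ M, Definite s P) ↔ ∀ P ∈ M', Definite s P) :=
    fun s hs => ⟨fun hM => (recognised hs h hM).1, fun hM => (recognised hs h.symm hM).1⟩
  refine ⟨⟨h3, h1, h2, h6⟩, ?_⟩
  rintro (h7 | ⟨s, P, hs, rfl, hn, hP⟩)
  · rw [h5 h7]
    exact Multiset.rel_refl_of_refl_on fun P _ => iso_refl P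
  · obtain ⟨P', rfl, h8⟩ := Pool.Agent.TWO.small_links hs hn.le hP h
    have h9 : Definite s P' := (h6 s hs).1 (fun Q hQ => by
      rw [Multiset.mem_singleton] at hQ
      rw [hQ]
      exact hP) P' (Multiset.mem_singleton_self _)
    have h10 := Pool.Agent.TWO.iso_of_same hs hP h9 h8
    exact Multiset.Rel.cons h10 Multiset.Rel.zero

end Pool.Agent.Results.MP_27a3bb_gt.GraphPieces
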