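import Pool.Agent.GSP.Main
import Pool.Agent.GSP.N5
import Pool.Agent.GSH.Main
import Pool.Agent.GSH.Deg

/-!
# The LMO invariant separates generic graph homology spheres

A prime graph homology sphere is given by a splice diagram (Eisenbud, Neumann); the weights of the
edges and the edge determinants may have any sign, and the nodes may have any valence. We show that
finitely many coefficients of the Ohtsuki series, which the LMO invariant determines, separate the
connected sums of prime graph homology spheres in each of the following two classes.

(A) There are at most two leaves at every node, and every node with leaves has a leaf `p` whose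
common divisors with the leaves of all other nodes divide a divisor `g` of `p` with
`φ (2 p) ≥ 3 φ (2 g)`, and `φ (2 p) ≥ 6` (`Big`). This is the case if `p ≥ 7`, `p ≠ 12`, and the
common divisors are at most `3` (`big_of_gcd`), and if `p ≠ 5` is divisible by an odd prime power
`d ≥ 5` which divides no leaf of another node (`big_of_pp`). In addition we assume in this case for
one of the two manifolds that `(L⁻¹)_vv ≠ 0` at the nodes `v` with leaves, where `L` is the matrix of
the linking numbers of the nodes.

(B) There may be any number of leaves at every node, and every node with `a ≥ 1` leaves has a leaf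
which is divisible by a power `l ^ m` of a prime `l ≥ 4 ^ (a + 3)` which divides no leaf of another
node (`GenH`). The bound depends on the node only, and there is no condition for `L`.
-/

set_option autoImplicit false

open Finset PowerSeries

namespace Pool.Agent.Results.MP_27a3bb_gt.GraphSeparation

open Pool.Agent.OHG Pool.Agent.GSP Pool.Agent.GSH

/-- Let `P` and `P'` be finite families of prime graph homology spheres. We assume that (A) both are
in the class `Cls` and the members of `P` satisfy `Reg`, or (B) both are in the class `GenH`. Let
`c₂ - c₁ ^ 2 / 2 ≤ c` for `P`. If the coefficients of degree at most `d` of the Ohtsuki series of the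
connected sums of the two families agree, where `d` depends on `c` only, then the families agree up to
the order and up to isomorphism of the splice diagrams; an isomorphism preserves the leaves and the
weights of the edges and the signs of the nodes up to the simultaneous change of the sign of a weight
and of the sign of its node, which does not change the manifold. -/
theorem result (c : ℝ) : ∃ d : ℕ, ∀ {ι ι' : Type} [Fintype ι] [Fintype ι'] {κ κ' : ℝ}
    {P : ι → Prime} {P' : ι' → Prime},
    ((Cls P ∧ (∀ i, Reg (P i)) ∧ Cls P') ∨ (GenH P ∧ GenH P')) →
    coeff 2 (series κ (univ.val.map P)) - (coeff 1 (series κ (univ.val.map P))) ^ 2 / 2 ≤ c →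
    (∀ n ≤ d, coeff n (series κ (univ.val.map P)) = coeff n (series κ' (univ.val.map P'))) →
    κ = κ' ∧ ∃ e : ι ≃ ι', ∀ i, Iso (P i) (P' (e i)) := by
  obtain ⟨d, hd⟩ := exists_deg c
  refine ⟨d, fun {ι ι'} _ _ {κ κ' P P'} h hc he => ?_⟩
  have hs := hd _ _ _ _ hc he
  rcases h with ⟨h1, h2, h3⟩ | ⟨h1, h2⟩
  · exact separation h1 h2 h3 hs
  · exact separationH h1 h2 hs

end Pool.Agent.Results.MP_27a3bb_gt.GraphSeparation
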